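import Pool.Agent.Q56.GO.Ind

/-!
# Sheaves of geometric origin in characteristic `p`: reduction to affine spaces over the prime field
-/

set_option autoImplicit false

namespace Pool.Agent.Q56.GO

open Pool.Agent.Q187.FM

section
variable {Λ G H : Type} [Field Λ] [Group G] [Group H]

/-- `T` is isomorphic to the twist of `S` by the character `χ`. -/
def IsTwist (χ : G →* Λˣ) (S T : Rp Λ G) : Prop :=
  ∃ u : S.V ≃ₗ[Λ] T.V, ∀ g v, T.r g (u v) = (χ g : Λ) • u (S.r g v)

/-- `T` is isomorphic to a subrepresentation of the representation of `G` induced from `S`: the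
functions `f : G → S.V` with `f (b h * g) = h (f g)`, on which `G` acts by right translation. -/
def SubInduced (b : H →* G) (S : Rp Λ H) (T : Rp Λ G) : Prop :=
  ∃ u : T.V →ₗ[Λ] (G → S.V), Function.Injective u ∧
    (∀ t h g, u t (b h * g) = S.r h (u t g)) ∧ ∀ t g x, u (T.r g t) x = u t (x * g)

/-- The determinant is of finite order. -/
def FiniteDet (S : Rp Λ G) : Prop := ∃ N : ℕ, 0 < N ∧ ∀ g, (LinearMap.det (S.r g)) ^ N = 1

theorem FiniteDet.pull {S : Rp Λ G} (h : FiniteDet S) (φ : H →* G) : FiniteDet (S.pull φ) := by
  obtain ⟨N, hN, h1⟩ := h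
  exact ⟨N, hN, fun g => h1 (φ g)⟩

theorem IsTwist.irreducible {χ : G →* Λˣ} {S T : Rp Λ G} (h : IsTwist χ S T)
    (hS : S.Irreducible) : T.Irreducible := by
  obtain ⟨u, hu⟩ := h
  obtain ⟨⟨v, hv⟩, h2⟩ := hS
  refine ⟨⟨u v, fun h0 => hv (u.map_eq_zero_iff.1 h0)⟩, fun A hA => ?_⟩
  have hst : S.Stable (A.comap u.toLinearMap) := by
    intro g w hw
    have h1 : T.r g (u w) ∈ A := hA g _ hw
    rw [hu] at h1
    have h3 := A.smul_mem ((χ g)⁻¹ : Λˣ).1 h1
    rw [smul_smul, Units.inv_mul, one_smul] at h3
    exact h3
  rcases h2 _ hst with h0 | h0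
  · left
    rw [eq_bot_iff]
    intro w hw
    have h1 : u.symm w ∈ A.comap u.toLinearMap := by
      change u (u.symm w) ∈ A
      rwa [u.apply_symm_apply]
    rw [h0, Submodule.mem_bot] at h1
    rw [Submodule.mem_bot, ← u.apply_symm_apply w, h1, map_zero]
  · right
    rw [eq_top_iff]
    intro w _
    have h1 : u.symm w ∈ A.comap u.toLinearMap := by
      rw [h0]
      trivial
    change u (u.symm w) ∈ A at h1
    rwa [u.apply_symm_apply] at h1

theorem subInduced_of_embeds {b : H →* G} {hb : b.range.FiniteIndex} {S : Rp Λ H} {T : Rp Λ G}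
    (h : T.EmbedsIn (ind b hb S)) : SubInduced b S T := by
  obtain ⟨w, hw, hw2⟩ := h
  let w' : T.V →ₗ[Λ] indSpace b S := w
  refine ⟨(indSpace b S).subtype ∘ₗ w', fun t t' ht => hw (Subtype.ext ht),
    fun t h g => (w' t).2 h g, fun t g x => congrFun (congrArg Subtype.val (hw2 g t)) x⟩

theorem irreducible_pull {S : Rp Λ G} (h : S.Irreducible) {φ : H →* G}
    (hφ : Function.Surjective φ) : (S.pull φ).Irreducible := by
  refine ⟨h.1, fun A hA => h.2 A fun g v hv => ?_⟩
  obtain ⟨k, rfl⟩ := hφ g
  exact hA k v hv

end

/-- Smooth irreducible varieties over the finite fields of one characteristic `p`, and lisse sheaves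
with coefficients in an algebraic closure `Λ` of the field of `l`-adic numbers, `l ≠ p`. -/
structure Data (Λ : Type) [Field Λ] where
  /-- the smooth irreducible varieties over finite fields of characteristic `p` -/
  Var : Type
  /-- dimension -/
  dim : Var → ℕ
  /-- etale fundamental group of `X` -/
  Pi : Var → Type
  [grp : ∀ X, Group (Pi X)]
  /-- the representation is continuous: a lisse sheaf on `X` -/
  lisse : ∀ X, Rp Λ (Pi X) → Prop
  /-- a lisse sheaf such that the eigenvalues of all Frobenius elements are plain of weight zero: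
  algebraic numbers all of whose complex absolute values are `1`, and units outside `p` -/
  plain : ∀ X, Rp Λ (Pi X) → Prop
  /-- the character is trivial on the geometric fundamental group and its value at the Frobenius is
  plain of weight zero -/
  const : ∀ X, (Pi X →* Λˣ) → Prop
  /-- some Tate twist of the restriction of the sheaf to the Galois group of the function field `K`
  is isomorphic to a subquotient of the cohomology of a variety over `K` -/
  occurs : ∀ X, Rp Λ (Pi X) → Prop
  /-- the homomorphism is induced by the inclusion of a nonempty open subscheme `U` of `X` -/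
  opn : ∀ U X, (Pi U →* Pi X) → Prop
  /-- the homomorphism is induced by a finite etale morphism -/
  fet : ∀ U X, (Pi U →* Pi X) → Prop
  /-- the affine space of dimension `n` over the prime field -/
  affine : ℕ → Var

attribute [instance] Data.grp

variable {Λ : Type} [Field Λ]

/-- The assertion of Q1 for `X`: every irreducible lisse sheaf on `X` with determinant of finite
order occurs, up to a Tate twist, in the cohomology of a variety over the function field. -/
def Data.Question (D : Data Λ) (X : D.Var) : Prop :=
  ∀ S : Rp Λ (D.Pi X), D.lisse X S → S.Irreducible → FiniteDet S → D.occurs X S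

/-- Open subschemes: the fundamental group becomes larger, the function field is the same. -/
structure Data.Open (D : Data Λ) : Prop where
  surjective : ∀ U X a, D.opn U X a → Function.Surjective a
  lisse : ∀ U X a, D.opn U X a → ∀ S, D.lisse X S → D.lisse U (S.pull a)
  occurs : ∀ U X a, D.opn U X a → ∀ S, D.occurs U (S.pull a) → D.occurs X S

/-- Finite etale morphisms `U → X`: the fundamental group of `U` is a subgroup of finite index;
subsheaves of direct images of plain sheaves are plain; a sheaf on `U` which is a quotient of the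
restriction of one that occurs in cohomology occurs in cohomology. -/
structure Data.Etale (D : Data Λ) : Prop where
  injective : ∀ U X b, D.fet U X b → Function.Injective b
  index : ∀ U X b, D.fet U X b → b.range.FiniteIndex
  plain : ∀ U X b, D.fet U X b → ∀ S T, D.plain U S → SubInduced b S T → D.plain X T
  occurs : ∀ U X b, D.fet U X b → ∀ (T : Rp Λ (D.Pi X)) (S : Rp Λ (D.Pi U)), D.occurs X T →
    S.QuotientOf (T.pull b) → D.occurs U S

/-- Plain sheaves: an irreducible sheaf with determinant of finite order is plain (Lafforgue,
Deligne); every irreducible plain sheaf has a twist by a constant plain character which is lisse with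
determinant of finite order (Deligne); a sheaf occurs in cohomology if its twist by a constant plain
character does so (Honda, Tate, Kuenneth). -/
structure Data.Plain (D : Data Λ) : Prop where
  plain : ∀ X S, D.lisse X S → S.Irreducible → FiniteDet S → D.plain X S
  twist : ∀ X S, D.plain X S → S.Irreducible →
    ∃ χ T, D.const X χ ∧ IsTwist χ S T ∧ D.lisse X T ∧ FiniteDet T
  occurs : ∀ X χ S T, D.const X χ → IsTwist χ S T → D.occurs X T → D.occurs X S

/-- Kedlaya: every `X` has a nonempty open subscheme that is finite etale over the affine space of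
the same dimension (over the field of definition, hence over the prime field). -/
def Data.Kedlaya (D : Data Λ) : Prop :=
  ∀ X, ∃ (U : D.Var) (a : D.Pi U →* D.Pi X) (b : D.Pi U →* D.Pi (D.affine (D.dim X))),
    D.opn U X a ∧ D.fet U (D.affine (D.dim X)) b

/-- The projections of affine spaces: a sheaf whose pull-back occurs in cohomology occurs in
cohomology (restrict to a general section). -/
def Data.Projections (D : Data Λ) : Prop :=
  ∀ n, ∃ c : D.Pi (D.affine (n + 1)) →* D.Pi (D.affine n), Function.Surjective c ∧
    (∀ S, D.lisse _ S → D.lisse _ (S.pull c)) ∧ ∀ S, D.occurs _ (S.pull c) → D.occurs _ S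

theorem reduction {D : Data Λ} (ho : D.Open) (he : D.Etale) (hp : D.Plain) (hk : D.Kedlaya)
    (X : D.Var) (h : D.Question (D.affine (D.dim X))) : D.Question X := by
  intro S hS hirr hdet
  obtain ⟨U, a, b, ha, hb⟩ := hk X
  refine ho.occurs U X a ha S ?_
  have hS1 := ho.lisse U X a ha S hS
  have hirr1 := irreducible_pull hirr (ho.surjective U X a ha)
  have hdet1 := hdet.pull a
  have hpl := hp.plain U _ hS1 hirr1 hdet1
  obtain ⟨T, hT1, hT2, hT3⟩ := exists_quotient b (he.injective U _ b hb) (he.index U _ b hb) _ hirr1
  have hTp : D.plain _ T := he.plain U _ b hb _ T hpl (subInduced_of_embeds hT2)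
  obtain ⟨χ, T', hχ1, hχ2, hχ3, hχ4⟩ := hp.twist _ T hTp hT1
  have h1 := h T' hχ3 (hχ2.irreducible hT1) hχ4
  exact he.occurs U _ b hb T _ (hp.occurs _ χ T T' hχ1 hχ2 h1) hT3

theorem descend {D : Data Λ} (hp : D.Projections) {n : ℕ} (h : D.Question (D.affine (n + 1))) :
    D.Question (D.affine n) := by
  obtain ⟨c, hc, hc2, hc3⟩ := hp n
  exact fun S hS hirr hdet => hc3 S (h _ (hc2 S hS) (irreducible_pull hirr hc) (hdet.pull c))

theorem descend' {D : Data Λ} (hp : D.Projections) {m n : ℕ} (hmn : m ≤ n)
    (h : D.Question (D.affine n)) : D.Question (D.affine m) := by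
  induction n, hmn using Nat.le_induction with
  | base => exact h
  | succ n _ ih => exact ih (descend hp h)

end Pool.Agent.Q56.GO
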