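import Pool.Agent.Q56.GO.Aff

/-!
# Coverings and geometric origin: semisimple representations

Reduction of a question of the form: every semisimple representation of `Pi Y` with the property
`qg` has the property `geo`, to irreducible representations for special `Y`.
-/

set_option autoImplicit false

namespace Pool.Agent.Q56.GO

open Pool.Agent.Q187.FM

/-- Spaces with fundamental groups and two properties of representations (objects): `qg`, the
property which is assumed, and `geo`, geometric origin. -/
structure Spaces (Λ : Type) [Field Λ] where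
  /-- the spaces -/
  Sp : Type
  /-- dimension -/
  dim : Sp → ℕ
  /-- fundamental group -/
  Pi : Sp → Type
  [grp : ∀ Y, Group (Pi Y)]
  /-- the representation has the property assumed in the question -/
  qg : ∀ Y, Rp Λ (Pi Y) → Prop
  /-- the representation is of geometric origin -/
  geo : ∀ Y, Rp Λ (Pi Y) → Prop
  /-- the homomorphism is induced by an etale morphism with dense image -/
  cov : ∀ U Y, (Pi U →* Pi Y) → Prop
  /-- the homomorphism is induced by a finite etale morphism -/
  fet : ∀ U L, (Pi U →* Pi L) → Prop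

attribute [instance] Spaces.grp

variable {Λ : Type} [Field Λ]

/-- The question for `Y`, for semisimple representations. -/
def Spaces.Question (D : Spaces Λ) (Y : D.Sp) : Prop :=
  ∀ S : Rp Λ (D.Pi Y), D.qg Y S → S.Semisimple → D.geo Y S

/-- The question for `Y`, for irreducible representations. -/
def Spaces.Irr (D : Spaces Λ) (Y : D.Sp) : Prop :=
  ∀ S : Rp Λ (D.Pi Y), D.qg Y S → S.Irreducible → D.geo Y S

/-- `qg` passes to direct summands, `geo` to direct sums. -/
structure Spaces.Sums (D : Spaces Λ) : Prop where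
  summand : ∀ Y (S S₁ S₂ : Rp Λ (D.Pi Y)), S.IsSum S₁ S₂ → D.qg Y S → D.qg Y S₁
  zero : ∀ Y (S : Rp Λ (D.Pi Y)), (∀ v : S.V, v = 0) → D.geo Y S
  sum : ∀ Y (S S₁ S₂ : Rp Λ (D.Pi Y)), S.IsSum S₁ S₂ → D.geo Y S₁ → D.geo Y S₂ → D.geo Y S

/-- Etale morphisms `U → Y` with dense image: `qg` and semisimplicity pass from `Y` to `U`, and
geometric origin of the restriction to `U` implies geometric origin. -/
structure Spaces.Covers (D : Spaces Λ) : Prop where
  semisimple : ∀ U Y a, D.cov U Y a → ∀ S : Rp Λ (D.Pi Y), S.Semisimple → (S.pull a).Semisimple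
  qg : ∀ U Y a, D.cov U Y a → ∀ S, D.qg Y S → D.qg U (S.pull a)
  geo : ∀ U Y a, D.cov U Y a → ∀ S, D.qg Y S → S.Semisimple → D.geo U (S.pull a) → D.geo Y S

/-- Finite etale morphisms `U → L`: subgroups of finite index; `qg` for irreducible
subrepresentations of direct images of irreducible ones; geometric origin for quotients of
restrictions. -/
structure Spaces.Finite (D : Spaces Λ) : Prop where
  injective : ∀ U L b, D.fet U L b → Function.Injective b
  index : ∀ U L b, D.fet U L b → b.range.FiniteIndex
  qg : ∀ U L b, D.fet U L b → ∀ S T, D.qg U S → S.Irreducible → T.Irreducible →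
    SubInduced b S T → D.qg L T
  geo : ∀ U L b, D.fet U L b → ∀ (T : Rp Λ (D.Pi L)) (S : Rp Λ (D.Pi U)), D.geo L T →
    S.QuotientOf (T.pull b) → D.geo U S

/-- A dense part of `Y` (an etale morphism `U → Y` with dense image) is finite etale over `L`. -/
def Spaces.Over (D : Spaces Λ) (Y L : D.Sp) : Prop :=
  ∃ (U : D.Sp) (a : D.Pi U →* D.Pi Y) (b : D.Pi U →* D.Pi L), D.cov U Y a ∧ D.fet U L b

theorem irr_fet {D : Spaces Λ} (hf : D.Finite) {U L : D.Sp} {b : D.Pi U →* D.Pi L}
    (hb : D.fet U L b) (h : D.Irr L) : D.Irr U := by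
  intro S hS hirr
  obtain ⟨T, hT1, hT2, hT3⟩ := exists_quotient b (hf.injective U L b hb) (hf.index U L b hb) S hirr
  exact hf.geo U L b hb T S
    (h T (hf.qg U L b hb S T hS hirr hT1 (subInduced_of_embeds hT2)) hT1) hT3

theorem question_of_irr {D : Spaces Λ} (hs : D.Sums) {U : D.Sp} (h : D.Irr U) : D.Question U := by
  intro S hS hss
  refine Rp.induction (P := D.qg U) (Q := D.geo U)
    (fun R A C hA hC hAC hR => hs.summand U R _ _ (R.isSum A C hA hC hAC) hR)
    (fun R hR _ => hs.zero U R hR)
    (fun R A C hA hC hAC h1 h2 => hs.sum U R _ _ (R.isSum A C hA hC hAC) h1 h2)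
    (fun R hR hq => h R hq hR) S hss hS

theorem question_of_over {D : Spaces Λ} (hs : D.Sums) (hc : D.Covers) (hf : D.Finite) {Y L : D.Sp}
    (h : D.Over Y L) (hL : D.Irr L) : D.Question Y := by
  obtain ⟨U, a, b, ha, hb⟩ := h
  intro S hS hss
  exact hc.geo U Y a ha S hS hss (question_of_irr hs (irr_fet hf hb hL) _ (hc.qg U Y a ha S hS)
    (hc.semisimple U Y a ha S hss))

end Pool.Agent.Q56.GO
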