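import Pool.Agent.Q187.FM.Rp

/-!
# Induced representations and Frobenius reciprocity

For an injective homomorphism `b : H → G` whose image has finite index and a finite-dimensional
irreducible representation `S` of `H` there is an irreducible subrepresentation `T` of the
representation of `G` induced from `S`, and `S` is a quotient of the restriction of `T` to `H`.
-/

set_option autoImplicit false

namespace Pool.Agent.Q56.GO

open Pool.Agent.Q187.FM

variable {Λ G H : Type} [Field Λ] [Group G] [Group H]

/-- The functions `f : G → V` with `f (b h * g) = h (f g)`. -/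
def indSpace (b : H →* G) (S : Rp Λ H) : Submodule Λ (G → S.V) where
  carrier := {f | ∀ h g, f (b h * g) = S.r h (f g)}
  add_mem' := fun {f f'} hf hf' h g => by
    rw [Pi.add_apply, Pi.add_apply, hf, hf', map_add]
  zero_mem' := fun h g => (map_zero _).symm
  smul_mem' := fun c f hf h g => by
    rw [Pi.smul_apply, Pi.smul_apply, hf, map_smul]

/-- The evaluation at representatives of the cosets. -/
noncomputable def evQ (b : H →* G) (S : Rp Λ H) :
    indSpace b S →ₗ[Λ] (Quotient (QuotientGroup.rightRel b.range) → S.V) where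
  toFun f q := f.1 q.out
  map_add' _ _ := rfl
  map_smul' _ _ := rfl

theorem evQ_injective (b : H →* G) (S : Rp Λ H) : Function.Injective (evQ b S) := by
  intro f f' hff
  refine Subtype.ext (funext fun g => ?_)
  have h1 : QuotientGroup.rightRel b.range g (Quotient.mk (QuotientGroup.rightRel b.range) g).out :=
    Setoid.symm' _ (Quotient.exact (Quotient.out_eq _))
  rw [QuotientGroup.rightRel_apply] at h1
  obtain ⟨h, hh⟩ := h1
  have h2 : (Quotient.mk (QuotientGroup.rightRel b.range) g).out = b h * g := by
    rw [hh, inv_mul_cancel_right]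
  have h3 := congrFun hff (Quotient.mk (QuotientGroup.rightRel b.range) g)
  change f.1 _ = f'.1 _ at h3
  rw [h2, f.2, f'.2] at h3
  have h4 := congrArg (S.r h⁻¹) h3
  rw [← Module.End.mul_apply, ← Module.End.mul_apply, ← map_mul, inv_mul_cancel, map_one] at h4
  exact h4

theorem finite_indSpace (b : H →* G) (S : Rp Λ H) (hb : b.range.FiniteIndex) :
    FiniteDimensional Λ (indSpace b S) := by
  have : Finite (Quotient (QuotientGroup.rightRel b.range)) :=
    (QuotientGroup.quotientRightRelEquivQuotientLeftRel b.range).finite_iff.2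
      (Subgroup.finite_quotient_of_finiteIndex)
  exact FiniteDimensional.of_injective (evQ b S) (evQ_injective b S)

/-- The induced representation. -/
def ind (b : H →* G) (hb : b.range.FiniteIndex) (S : Rp Λ H) : Rp Λ G where
  V := indSpace b S
  fin := finite_indSpace b S hb
  r := {
    toFun := fun g => {
      toFun := fun f => ⟨fun x => f.1 (x * g), fun h x => by
        change f.1 (b h * x * g) = S.r h (f.1 (x * g))
        rw [mul_assoc]
        exact f.2 h _⟩
      map_add' := fun _ _ => rfl
      map_smul' := fun _ _ => rfl }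
    map_one' := by
      refine LinearMap.ext fun f => Subtype.ext (funext fun x => ?_)
      change f.1 (x * 1) = f.1 x
      rw [mul_one]
    map_mul' := fun g g' => by
      refine LinearMap.ext fun f => Subtype.ext (funext fun x => ?_)
      change f.1 (x * (g * g')) = f.1 (x * g * g')
      rw [mul_assoc] }

theorem ind_apply (b : H →* G) (hb : b.range.FiniteIndex) (S : Rp Λ H) (g x : G)
    (f : indSpace b S) : ((ind b hb S).r g f : indSpace b S).1 x = f.1 (x * g) := rfl

theorem ind_nonzero (b : H →* G) (hinj : Function.Injective b) (hb : b.range.FiniteIndex)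
    (S : Rp Λ H) (hS : ∃ v : S.V, v ≠ 0) : ∃ f : (ind b hb S).V, f ≠ 0 := by
  classical
  obtain ⟨v, hv⟩ := hS
  let f : G → S.V := fun g => if hg : ∃ h, b h = g then S.r hg.choose v else 0
  have hf : ∀ h, f (b h) = S.r h v := by
    intro h
    have hg : ∃ h', b h' = b h := ⟨h, rfl⟩
    change (if hg : ∃ h', b h' = b h then S.r hg.choose v else 0) = _
    rw [dif_pos hg, hinj hg.choose_spec]
  have hf0 : ∀ g, (¬ ∃ h, b h = g) → f g = 0 := fun g hg => dif_neg hg
  have hmem : f ∈ indSpace b S := by
    intro h g
    by_cases hg : ∃ h', b h' = g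
    · obtain ⟨h', rfl⟩ := hg
      rw [← map_mul, hf, hf, map_mul]
      rfl
    · rw [hf0 g hg, hf0, map_zero]
      rintro ⟨h', hh'⟩
      exact hg ⟨h⁻¹ * h', by rw [map_mul, hh', map_inv, inv_mul_cancel_left]⟩
  refine ⟨(⟨f, hmem⟩ : indSpace b S), fun h0 => hv ?_⟩
  have h1 : f = 0 := congrArg Subtype.val h0
  have h2 := hf 1
  rw [h1, map_one, map_one] at h2
  exact h2.symm

/-- A nonzero finite-dimensional representation contains an irreducible one. -/
theorem exists_irreducible (S : Rp Λ G) (hS : ∃ v : S.V, v ≠ 0) :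
    ∃ (A : Submodule Λ S.V) (hA : S.Stable A), (S.sub A hA).Irreducible := by
  classical
  have hex : ∃ n, ∃ A : Submodule Λ S.V, S.Stable A ∧ A ≠ ⊥ ∧ Module.finrank Λ A = n := by
    refine ⟨_, ⊤, fun _ _ _ => trivial, fun h => ?_, rfl⟩
    obtain ⟨v, hv⟩ := hS
    exact hv ((Submodule.mem_bot Λ).1 (h ▸ Submodule.mem_top))
  obtain ⟨A, hA, hA0, hAn⟩ := Nat.find_spec hex
  refine ⟨A, hA, ?_, ?_⟩
  · obtain ⟨v, hv, hv0⟩ := Submodule.exists_mem_ne_zero_of_ne_bot hA0
    exact ⟨(⟨v, hv⟩ : A), fun h => hv0 (congrArg Subtype.val h)⟩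
  · intro (C : Submodule Λ A) hC
    by_cases hC0 : C = ⊥
    · exact Or.inl hC0
    right
    have h1 : S.Stable (C.map A.subtype) := by
      rintro g _ ⟨c, hc, rfl⟩
      exact ⟨_, hC g c hc, rfl⟩
    have h2 : C.map A.subtype ≠ ⊥ := fun h => hC0
      (Submodule.map_injective_of_injective A.injective_subtype (h.trans (Submodule.map_bot _).symm))
    have h3 := Nat.find_min' hex ⟨_, h1, h2, rfl⟩
    rw [← hAn, ← (Submodule.equivMapOfInjective _ A.injective_subtype C).finrank_eq] at h3
    exact Submodule.eq_top_of_finrank_eq (le_antisymm (Submodule.finrank_le C) h3)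

/-- Frobenius reciprocity for a subrepresentation of the induced representation. -/
theorem quotient_of_embeds (b : H →* G) (hb : b.range.FiniteIndex) (S : Rp Λ H)
    (hS : S.Irreducible) (T : Rp Λ G) (hT : ∃ t : T.V, t ≠ 0) (hE : T.EmbedsIn (ind b hb S)) :
    S.QuotientOf (T.pull b) := by
  obtain ⟨w, hw, hw2⟩ := hE
  let w' : T.V →ₗ[Λ] indSpace b S := w
  have hw' : ∀ g t x, (w' (T.r g t)).1 x = (w' t).1 (x * g) := fun g t x =>
    congrFun (congrArg Subtype.val (hw2 g t)) x
  let u : T.V →ₗ[Λ] S.V :=
    { toFun := fun t => (w' t).1 1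
      map_add' := fun t t' => by rw [map_add]; rfl
      map_smul' := fun c t => by rw [map_smul]; rfl }
  have hu : ∀ h (t : T.V), u (T.r (b h) t) = S.r h (u t) := by
    intro h t
    change (w' (T.r (b h) t)).1 1 = S.r h ((w' t).1 1)
    rw [hw', one_mul, ← (w' t).2 h 1, mul_one]
  have hst : S.Stable (LinearMap.range u) := by
    rintro h _ ⟨f, rfl⟩
    exact ⟨_, hu h f⟩
  let u' : (T.pull b).V →ₗ[Λ] S.V := u
  refine ⟨u', ?_, hu⟩
  change Function.Surjective u
  rcases hS.2 _ hst with h0 | h1
  · exfalso
    obtain ⟨t, ht⟩ := hT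
    apply ht
    apply hw
    rw [map_zero]
    refine Subtype.ext (funext fun g => ?_)
    have h2 : u (T.r g t) = 0 := by
      have h3 : u (T.r g t) ∈ LinearMap.range u := ⟨_, rfl⟩
      rwa [h0] at h3
    change (w' (T.r g t)).1 1 = 0 at h2
    rw [hw', one_mul] at h2
    exact h2
  · exact LinearMap.range_eq_top.1 h1

/-- **Frobenius reciprocity.** An irreducible representation of `H` is a quotient of the restriction
of an irreducible subrepresentation of the induced representation. -/
theorem exists_quotient (b : H →* G) (hinj : Function.Injective b) (hb : b.range.FiniteIndex)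
    (S : Rp Λ H) (hS : S.Irreducible) :
    ∃ T : Rp Λ G, T.Irreducible ∧ T.EmbedsIn (ind b hb S) ∧ S.QuotientOf (T.pull b) := by
  obtain ⟨A, hA, hirr⟩ := exists_irreducible _ (ind_nonzero b hinj hb S hS.1)
  exact ⟨_, hirr, Rp.sub_embeds _ A hA,
    quotient_of_embeds b hb S hS _ hirr.1 (Rp.sub_embeds _ A hA)⟩

end Pool.Agent.Q56.GO
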